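import Pool.Agent.H38.FCB.PRE1

/-!
Project FCB, module ORD: the order at a prime divisor whose prime ideal in a chart is principal.
-/

open AlgebraicGeometry CategoryTheory

set_option linter.unusedSectionVars false
set_option linter.style.haveILetI false

namespace FCB

namespace ORD

variable {R ι C : Type} {r : ℕ} [CommRing R] [IsDomain R] [Algebra ℂ R] [Fintype ι]
    {D : Cox R ι C r} (M : PreModel D)

theorem max_eq (c : C) (x : M.X) (hx : x ∈ M.U c) (π : D.chart c)
    (hπ : M.pr c x hx = Ideal.span {π}) :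
    IsLocalRing.maximalIdeal (M.X.presheaf.stalk x) = Ideal.span {PRE1.gm M c x hx π} := by
  apply le_antisymm
  · intro s hs
    obtain ⟨a, b, hb, h⟩ := PRE1.surj M c x hx s
    have ha : a ∈ M.pr c x hx := by
      rw [PRE1.mem_pr, ← h, IsUnit.mul_iff]
      rintro ⟨h1, -⟩
      exact (IsLocalRing.mem_maximalIdeal s).1 hs h1
    rw [hπ, Ideal.mem_span_singleton] at ha
    obtain ⟨e, rfl⟩ := ha
    rw [Ideal.mem_span_singleton]
    obtain ⟨u, hu⟩ := hb
    refine ⟨PRE1.gm M c x hx e * (u⁻¹ : (M.X.presheaf.stalk x)ˣ), ?_⟩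
    rw [← hu, map_mul] at h
    rw [← mul_assoc, ← h, mul_assoc, Units.mul_inv, mul_one]
  · rw [Ideal.span_singleton_le_iff_mem]
    have h : π ∈ M.pr c x hx := by
      rw [hπ]
      exact Ideal.mem_span_singleton_self π
    exact (IsLocalRing.mem_maximalIdeal _).2 ((PRE1.mem_pr M c x hx π).1 h)

end ORD

/-- ORD -/
theorem ord (_h1 : S_PRE1) (h2 : S_PRE2) : S_ORD := by
  intro R ι C r _ _ _ _ D M c p hp π a b hπ ha hb k f hf
  have hmax := ORD.max_eq M c p.1 hp π hπ
  have hgmf : ∀ z : D.chart c, M.emb (algebraMap (M.X.presheaf.stalk p.1) M.X.functionField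
      (PRE1.gm M c p.1 hp z)) = (z : FractionRing R) := fun z => PRE1.se_gm M c p.1 hp z
  have hπ0 : π ≠ 0 := by
    intro h0
    have h3 := (h2 R ι C r D M c).2.2 p.1 hp
    rw [hπ, h0, p.2] at h3
    simp at h3
  have hnf : ¬ IsField (M.X.presheaf.stalk p.1) := by
    intro h
    have h3 := IsLocalRing.isField_iff_maximalIdeal_eq.1 h
    rw [hmax, Ideal.span_singleton_eq_bot] at h3
    apply hπ0
    apply Subtype.ext
    change (π : FractionRing R) = 0
    rw [← hgmf, h3, map_zero, map_zero]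
  haveI : IsNoetherianRing (M.X.presheaf.stalk p.1) := inferInstance
  haveI hdvr : IsDiscreteValuationRing (M.X.presheaf.stalk p.1) := by
    have h3 := (IsDiscreteValuationRing.TFAE (M.X.presheaf.stalk p.1) hnf).out 0 4
    apply h3.2
    rw [hmax]
    exact ⟨⟨_, rfl⟩⟩
  have hirr : Irreducible (PRE1.gm M c p.1 hp π) :=
    (IsDiscreteValuationRing.irreducible_iff_uniformizer _).2 hmax
  have hua : IsUnit (PRE1.gm M c p.1 hp a) := by
    by_contra h
    exact ha ((PRE1.mem_pr M c p.1 hp a).2 h)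
  have hub : IsUnit (PRE1.gm M c p.1 hp b) := by
    by_contra h
    exact hb ((PRE1.mem_pr M c p.1 hp b).2 h)
  have hEq : f * algebraMap (M.X.presheaf.stalk p.1) M.X.functionField (PRE1.gm M c p.1 hp b) =
      (algebraMap (M.X.presheaf.stalk p.1) M.X.functionField (PRE1.gm M c p.1 hp π)) ^ k *
      algebraMap (M.X.presheaf.stalk p.1) M.X.functionField (PRE1.gm M c p.1 hp a) := by
    apply M.emb.injective
    rw [map_mul, map_mul, map_zpow₀, hgmf, hgmf, hgmf]
    exact hf
  have hf0 : f ≠ 0 := by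
    rintro rfl
    rw [zero_mul] at hEq
    have h3 := hEq.symm
    rw [mul_eq_zero] at h3
    rcases h3 with h3 | h3
    · have h4 := eq_zero_of_zpow_eq_zero h3
      have h5 := IsFractionRing.injective (M.X.presheaf.stalk p.1) M.X.functionField
        (h4.trans (map_zero _).symm)
      exact hirr.ne_zero h5
    · have h5 := IsFractionRing.injective (M.X.presheaf.stalk p.1) M.X.functionField
        (h3.trans (map_zero _).symm)
      exact hua.ne_zero h5
  rw [Scheme.ord_eq_iff p.2 hf0]
  have hk : Scheme.ordHom p.1 p.2 f * Scheme.ordHom p.1 p.2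
      (algebraMap (M.X.presheaf.stalk p.1) M.X.functionField (PRE1.gm M c p.1 hp b)) =
      (Scheme.ordHom p.1 p.2 (algebraMap (M.X.presheaf.stalk p.1) M.X.functionField
        (PRE1.gm M c p.1 hp π))) ^ k *
      Scheme.ordHom p.1 p.2 (algebraMap (M.X.presheaf.stalk p.1) M.X.functionField
        (PRE1.gm M c p.1 hp a)) := by
    rw [← map_mul, hEq, map_mul, map_zpow₀]
  haveI : Ring.KrullDimLE 1 (M.X.presheaf.stalk p.1) := krullDimLE_of_coheight_le p.2.le
  have e1 : Scheme.ordHom p.1 p.2 (algebraMap (M.X.presheaf.stalk p.1) M.X.functionField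
      (PRE1.gm M c p.1 hp b)) = 1 := Ring.ordFrac_of_isUnit hub
  have e2 : Scheme.ordHom p.1 p.2 (algebraMap (M.X.presheaf.stalk p.1) M.X.functionField
      (PRE1.gm M c p.1 hp a)) = 1 := Ring.ordFrac_of_isUnit hua
  have e3 : Scheme.ordHom p.1 p.2 (algebraMap (M.X.presheaf.stalk p.1) M.X.functionField
      (PRE1.gm M c p.1 hp π)) = WithZero.exp 1 := Ring.ordFrac_irreducible hirr
  rw [e1, e2, e3, mul_one, mul_one] at hk
  rw [hk, ← WithZero.exp_zsmul]
  simp [WithZero.exp]

end FCB
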