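import Pool.Agent.H30.FCB.StB
import Pool.Agent.H30.FCB.Basic

/-!
Project FCB, module PRE1: the stalks are the localisations of the chart rings.
-/

open AlgebraicGeometry CategoryTheory

set_option linter.unusedSectionVars false
set_option linter.style.haveILetI false

namespace FCB

namespace PRE1

variable {R ι C : Type} {r : ℕ} [CommRing R] [IsDomain R] [Algebra ℂ R] [Fintype ι]
    {D : Cox R ι C r} (M : PreModel D)

/-- the germ of a chart element at a point of the chart -/
noncomputable def gm (c : C) (x : M.X) (hx : x ∈ M.U c) : D.chart c →+* M.X.presheaf.stalk x :=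
  (M.X.presheaf.germ (M.U c) x hx).hom.comp (M.iso c).symm.toRingHom

/-- the embedding of the stalk in the fraction field -/
noncomputable def se (x : M.X) : M.X.presheaf.stalk x →+* FractionRing R :=
  M.emb.comp (algebraMap _ M.X.functionField)

theorem se_inj (x : M.X) : Function.Injective (se M x) := by
  intro a b h
  exact IsFractionRing.injective (M.X.presheaf.stalk x) M.X.functionField (M.emb.injective h)

theorem se_gm (c : C) (x : M.X) (hx : x ∈ M.U c) (a : D.chart c) :
    se M x (gm M c x hx a) = (a : FractionRing R) := by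
  have h := M.iso_emb c ((M.iso c).symm a)
  rw [RingEquiv.apply_symm_apply] at h
  rw [h, ← Scheme.algebraMap_germ_eq_germToFunctionField M.X hx]
  rfl

theorem mem_pr (c : C) (x : M.X) (hx : x ∈ M.U c) (a : D.chart c) :
    a ∈ M.pr c x hx ↔ ¬ IsUnit (gm M c x hx a) := Iff.rfl

theorem surj (c : C) (x : M.X) (hx : x ∈ M.U c) (s : M.X.presheaf.stalk x) :
    ∃ a b : D.chart c, IsUnit (gm M c x hx b) ∧ s * gm M c x hx b = gm M c x hx a := by
  letI : Algebra Γ(M.X, M.U c) (M.X.presheaf.stalk x) :=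
    TopCat.Presheaf.algebra_section_stalk M.X.presheaf ⟨x, hx⟩
  haveI : IsLocalization.AtPrime (M.X.presheaf.stalk x)
    ((M.aff c).primeIdealOf ⟨x, hx⟩).asIdeal := (M.aff c).isLocalization_stalk ⟨x, hx⟩
  obtain ⟨⟨a, b⟩, h⟩ := IsLocalization.surj
    ((M.aff c).primeIdealOf ⟨x, hx⟩).asIdeal.primeCompl s
  have hb := IsLocalization.map_units (M := ((M.aff c).primeIdealOf ⟨x, hx⟩).asIdeal.primeCompl)
    (M.X.presheaf.stalk x) b
  refine ⟨M.iso c a, M.iso c b, ?_, ?_⟩
  · change IsUnit ((M.X.presheaf.germ (M.U c) x hx).hom ((M.iso c).symm (M.iso c b)))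
    rw [RingEquiv.symm_apply_apply]
    exact hb
  · change s * (M.X.presheaf.germ (M.U c) x hx).hom ((M.iso c).symm (M.iso c b)) =
      (M.X.presheaf.germ (M.U c) x hx).hom ((M.iso c).symm (M.iso c a))
    rw [RingEquiv.symm_apply_apply, RingEquiv.symm_apply_apply]
    exact h

end PRE1

/-- PRE1 -/
theorem pre1 : S_PRE1 := by
  intro R ι C r _ _ _ _ D M c x hx
  refine ⟨?_, ?_, ?_, ?_, ?_⟩
  · unfold PreModel.pr
    infer_instance
  · intro a
    exact ⟨PRE1.gm M c x hx a, PRE1.se_gm M c x hx a⟩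
  · intro a
    rw [PRE1.mem_pr, not_iff_not]
    constructor
    · intro h
      exact ⟨_, h, PRE1.se_gm M c x hx a⟩
    · rintro ⟨s, hs, h⟩
      have h1 : s = PRE1.gm M c x hx a := by
        apply PRE1.se_inj M x
        rw [PRE1.se_gm]
        exact h
      rwa [← h1]
  · intro f
    constructor
    · rintro ⟨s, rfl⟩
      obtain ⟨a, b, hb, h⟩ := PRE1.surj M c x hx s
      refine ⟨a, b, fun h1 => (PRE1.mem_pr M c x hx b).1 h1 hb, ?_⟩
      change PRE1.se M x s * (b : FractionRing R) = a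
      rw [← PRE1.se_gm M c x hx b, ← PRE1.se_gm M c x hx a, ← map_mul, h]
    · rintro ⟨a, b, hb, h⟩
      rw [PRE1.mem_pr, not_not] at hb
      obtain ⟨u, hu⟩ := hb
      refine ⟨PRE1.gm M c x hx a * (u⁻¹ : (M.X.presheaf.stalk x)ˣ), ?_⟩
      change PRE1.se M x (PRE1.gm M c x hx a * (u⁻¹ : (M.X.presheaf.stalk x)ˣ)) = f
      have hb0 : PRE1.se M x (u : M.X.presheaf.stalk x) ≠ 0 := by
        intro h0
        have := PRE1.se_inj M x (h0.trans (map_zero _).symm)
        exact u.ne_zero this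
      apply mul_right_cancel₀ hb0
      rw [← map_mul, mul_assoc, Units.inv_mul, mul_one, PRE1.se_gm, hu, PRE1.se_gm, h]
  · intro f
    constructor
    · rintro ⟨s, hs, rfl⟩
      obtain ⟨u, rfl⟩ := hs
      have h0 : PRE1.se M x (u : M.X.presheaf.stalk x) ≠ 0 := by
        intro h0
        have := PRE1.se_inj M x (h0.trans (map_zero _).symm)
        exact u.ne_zero this
      refine ⟨h0, ⟨u, rfl⟩, ⟨(u⁻¹ : (M.X.presheaf.stalk x)ˣ), ?_⟩⟩
      change PRE1.se M x ((u⁻¹ : (M.X.presheaf.stalk x)ˣ) : M.X.presheaf.stalk x) =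
        (PRE1.se M x (u : M.X.presheaf.stalk x))⁻¹
      apply eq_inv_of_mul_eq_one_left
      rw [← map_mul, Units.inv_mul, map_one]
    · rintro ⟨h0, ⟨s, hs⟩, ⟨t, ht⟩⟩
      refine ⟨s, ?_, hs⟩
      apply IsUnit.of_mul_eq_one t
      apply PRE1.se_inj M x
      rw [map_mul, map_one]
      change M.emb _ * M.emb _ = 1
      rw [hs, ht, mul_inv_cancel₀ h0]

end FCB
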