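import Pool.Agent.H30.FCB.StB
import Pool.Agent.H30.FCB.Basic

/-!
Project FCB, module PRE2: points of a chart are the primes of the chart ring, specialisation and
codimension.
-/

open AlgebraicGeometry CategoryTheory

set_option linter.unusedSectionVars false
set_option linter.style.haveILetI false

namespace FCB

namespace PRE2

variable {R ι C : Type} {r : ℕ} [CommRing R] [IsDomain R] [Algebra ℂ R] [Fintype ι]
    {D : Cox R ι C r} (M : PreModel D)

theorem comap_germ (c : C) (x : M.X) (hx : x ∈ M.U c) :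
    (IsLocalRing.maximalIdeal (M.X.presheaf.stalk x)).comap
      (M.X.presheaf.germ (M.U c) x hx).hom = ((M.aff c).primeIdealOf ⟨x, hx⟩).asIdeal := by
  letI : Algebra Γ(M.X, M.U c) (M.X.presheaf.stalk x) :=
    TopCat.Presheaf.algebra_section_stalk M.X.presheaf ⟨x, hx⟩
  haveI : IsLocalization.AtPrime (M.X.presheaf.stalk x)
    ((M.aff c).primeIdealOf ⟨x, hx⟩).asIdeal := (M.aff c).isLocalization_stalk ⟨x, hx⟩
  exact IsLocalization.AtPrime.under_maximalIdeal (M.X.presheaf.stalk x)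
    ((M.aff c).primeIdealOf ⟨x, hx⟩).asIdeal

theorem pr_eq (c : C) (x : M.X) (hx : x ∈ M.U c) :
    M.pr c x hx = (((M.aff c).primeIdealOf ⟨x, hx⟩).asIdeal).comap (M.iso c).symm.toRingHom := by
  rw [← comap_germ, Ideal.comap_comap]
  rfl

end PRE2

/-- PRE2 -/
theorem pre2 : S_PRE2 := by
  intro R ι C r _ _ _ _ D M c
  refine ⟨?_, ?_, ?_⟩
  · intro P hP
    let Q : PrimeSpectrum Γ(M.X, M.U c) := ⟨P.comap (M.iso c).toRingHom, Ideal.comap_isPrime _ _⟩
    have hx : (M.aff c).fromSpec Q ∈ M.U c := by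
      have h := (M.aff c).range_fromSpec
      have h1 : (M.aff c).fromSpec Q ∈ Set.range (M.aff c).fromSpec := ⟨Q, rfl⟩
      rw [h] at h1
      exact h1
    refine ⟨(M.aff c).fromSpec Q, hx, ?_⟩
    rw [PRE2.pr_eq]
    have h2 : (M.aff c).primeIdealOf ⟨(M.aff c).fromSpec Q, hx⟩ = Q := by
      apply (M.aff c).fromSpec.isOpenEmbedding.injective
      exact (M.aff c).fromSpec_primeIdealOf ⟨(M.aff c).fromSpec Q, hx⟩
    rw [h2]
    ext a
    simp only [Ideal.mem_comap, Q]
    change (M.iso c) ((M.iso c).symm a) ∈ P ↔ a ∈ P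
    rw [RingEquiv.apply_symm_apply]
  · intro x y hx hy
    rw [PRE2.pr_eq, PRE2.pr_eq]
    have h1 := (M.aff c).fromSpec_primeIdealOf ⟨x, hx⟩
    have h2 := (M.aff c).fromSpec_primeIdealOf ⟨y, hy⟩
    simp only at h1 h2
    have h3 : x ⤳ y ↔ (M.aff c).primeIdealOf ⟨x, hx⟩ ⤳ (M.aff c).primeIdealOf ⟨y, hy⟩ := by
      have h4 := (M.aff c).fromSpec.isOpenEmbedding.isInducing.specializes_iff
        (x := (M.aff c).primeIdealOf ⟨x, hx⟩) (y := (M.aff c).primeIdealOf ⟨y, hy⟩)
      have h5 : ((M.aff c).fromSpec ((M.aff c).primeIdealOf ⟨x, hx⟩) ⤳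
          (M.aff c).fromSpec ((M.aff c).primeIdealOf ⟨y, hy⟩)) ↔ x ⤳ y := by
        rw [h1, h2]
      exact h5.symm.trans h4
    rw [h3, ← PrimeSpectrum.le_iff_specializes]
    constructor
    · intro h
      exact Ideal.comap_mono h
    · intro h a ha
      have h4 : (M.iso c) a ∈ (((M.aff c).primeIdealOf ⟨x, hx⟩).asIdeal).comap
          (M.iso c).symm.toRingHom := by
        rw [Ideal.mem_comap]
        change (M.iso c).symm ((M.iso c) a) ∈ ((M.aff c).primeIdealOf ⟨x, hx⟩).asIdeal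
        rw [RingEquiv.symm_apply_apply]
        exact ha
      have h5 := h h4
      rw [Ideal.mem_comap] at h5
      change (M.iso c).symm ((M.iso c) a) ∈ ((M.aff c).primeIdealOf ⟨y, hy⟩).asIdeal at h5
      rw [RingEquiv.symm_apply_apply] at h5
      exact h5
  · intro x hx
    rw [PRE2.pr_eq]
    have h1 := (M.aff c).fromSpec_primeIdealOf ⟨x, hx⟩
    simp only at h1
    have h2 : (((M.aff c).primeIdealOf ⟨x, hx⟩).asIdeal).height = Order.coheight x := by
      have h3 := idealHeight_eq_coheight Γ(M.X, M.U c) ((M.aff c).primeIdealOf ⟨x, hx⟩)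
      have h4 := coheight_eq_of_isOpenImmersion (x := (M.aff c).primeIdealOf ⟨x, hx⟩)
        (M.aff c).fromSpec
      refine h3.trans (h4.symm.trans ?_)
      exact congrArg Order.coheight h1
    rw [← h2]
    exact RingEquiv.height_comap (M.iso c).symm _

end FCB
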