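import Pool.Agent.H38.FCB.PRE1

/-!
Project FCB, module PRE3: the function field of a model is the field of fractions of degree zero.
-/

open AlgebraicGeometry CategoryTheory

set_option linter.unusedSectionVars false
set_option linter.style.haveILetI false

namespace FCB

namespace PRE3

variable {R ι C : Type} {r : ℕ} [CommRing R] [IsDomain R] [Algebra ℂ R] [Fintype ι]
    {D : Cox R ι C r} (M : PreModel D)

theorem frac (c : C) (f : M.X.functionField) : ∃ s t : D.chart c, t ≠ 0 ∧
    M.emb f * (t : FractionRing R) = s := by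
  haveI : IsFractionRing Γ(M.X, M.U c) M.X.functionField :=
    functionField_isFractionRing_of_isAffineOpen M.X (M.U c) (M.aff c)
  obtain ⟨⟨s, t⟩, h⟩ := IsLocalization.surj (nonZeroDivisors Γ(M.X, M.U c)) f
  refine ⟨M.iso c s, M.iso c (t : Γ(M.X, M.U c)), ?_, ?_⟩
  · intro h0
    rw [EmbeddingLike.map_eq_zero_iff] at h0
    exact nonZeroDivisors.ne_zero t.2 h0
  · rw [M.iso_emb, M.iso_emb, ← map_mul]
    exact congrArg M.emb h

theorem real (c : C) (s : D.chart c) : ∃ f : M.X.functionField,
    M.emb f = (s : FractionRing R) := by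
  refine ⟨M.X.germToFunctionField (M.U c) ((M.iso c).symm s), ?_⟩
  rw [← M.iso_emb, RingEquiv.apply_symm_apply]

end PRE3

/-- PRE3 -/
theorem pre3 (h : S_CHEL) : S_PRE3 := by
  intro R ι C r _ _ _ _ _ D hD M
  obtain ⟨c⟩ := ‹Nonempty C›
  refine ⟨?_, ?_⟩
  · intro f hf
    obtain ⟨s, t, ht, hst⟩ := PRE3.frac M c f
    obtain ⟨n, a, hn, ha, h1⟩ := Cox.mem_chart.1 s.2
    obtain ⟨m, b, hm, hb, h2⟩ := Cox.mem_chart.1 t.2
    have hinj := IsFractionRing.injective R (FractionRing R)
    have hmn := hD.mono_ne n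
    have hmm := hD.mono_ne m
    have hmnF : algebraMap R (FractionRing R) (D.mono n) ≠ 0 := by
      rw [Ne, FaithfulSMul.algebraMap_eq_zero_iff]
      exact hmn
    have hmmF : algebraMap R (FractionRing R) (D.mono m) ≠ 0 := by
      rw [Ne, FaithfulSMul.algebraMap_eq_zero_iff]
      exact hmm
    have htF : (t : FractionRing R) ≠ 0 := by
      intro h0
      exact ht (Subtype.ext h0)
    have hfF : M.emb f ≠ 0 := by
      rw [Ne, map_eq_zero]
      exact hf
    have hsF : (s : FractionRing R) ≠ 0 := by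
      rw [← hst]
      exact mul_ne_zero hfF htF
    have ha0 : a ≠ 0 := by
      rintro rfl
      rw [map_zero] at h1
      exact mul_ne_zero hsF hmnF h1
    have hb0 : b ≠ 0 := by
      rintro rfl
      rw [map_zero] at h2
      exact mul_ne_zero htF hmmF h2
    refine ⟨D.wt n + D.wt m, a * D.mono m, D.mono n * b, D.mul_mem ha (D.mono_mem m),
      D.mul_mem (D.mono_mem n) hb, mul_ne_zero ha0 hmm, mul_ne_zero hmn hb0, ?_⟩
    rw [map_mul, map_mul, ← h1, ← h2, ← hst]
    ring
  · intro g a b ha hb ha0 hb0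
    have haF : algebraMap R (FractionRing R) a ≠ 0 := by
      rw [Ne, FaithfulSMul.algebraMap_eq_zero_iff]
      exact ha0
    have hbF : algebraMap R (FractionRing R) b ≠ 0 := by
      rw [Ne, FaithfulSMul.algebraMap_eq_zero_iff]
      exact hb0
    have hm := hD.monoZ_ne (-(D.σ c g))
    obtain ⟨f, hf⟩ := PRE3.real M c ⟨_, (h R ι C r D hD c).1 g a ha⟩
    obtain ⟨f', hf'⟩ := PRE3.real M c ⟨_, (h R ι C r D hD c).1 g b hb⟩
    have hf0 : f ≠ 0 := by
      rintro rfl
      rw [map_zero] at hf
      exact mul_ne_zero haF hm hf.symm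
    have hf'0 : f' ≠ 0 := by
      rintro rfl
      rw [map_zero] at hf'
      exact mul_ne_zero hbF hm hf'.symm
    refine ⟨f / f', div_ne_zero hf0 hf'0, ?_⟩
    rw [map_div₀, hf, hf']
    change (algebraMap R (FractionRing R) a * D.monoZ (-(D.σ c g))) /
      (algebraMap R (FractionRing R) b * D.monoZ (-(D.σ c g))) * algebraMap R (FractionRing R) b =
      algebraMap R (FractionRing R) a
    field_simp

end FCB
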